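import Pool.Agent.NH18.SV.Stm
import Pool.Agent.NH18.SC.Base

/-!
# SV-3 (project of helper18): the energy of the primes with the weight `Λ`. By helper10.
-/

namespace Pool.Agent.NH18.SV

open MeasureTheory Finset

namespace BaseH10

/-- the indicator of `x < n ≤ x + H` -/
noncomputable def ind (H : ℝ) (n : ℕ) (x : ℝ) : ℝ :=
  (Set.Ico ((n : ℝ) - H) n).indicator (fun _ => (1 : ℝ)) x

theorem ind_nonneg (H : ℝ) (n : ℕ) (x : ℝ) : 0 ≤ ind H n x := by
  unfold ind; exact Set.indicator_nonneg (fun _ _ => zero_le_one) x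

theorem ind_mul (H : ℝ) (n m : ℕ) (x : ℝ) : ind H n x * ind H m x =
    (Set.Ico ((n : ℝ) - H) n ∩ Set.Ico ((m : ℝ) - H) m).indicator (fun _ => (1 : ℝ)) x := by
  unfold ind
  by_cases h1 : x ∈ Set.Ico ((n : ℝ) - H) n
  · by_cases h2 : x ∈ Set.Ico ((m : ℝ) - H) m
    · rw [Set.indicator_of_mem h1, Set.indicator_of_mem h2, Set.indicator_of_mem
        (show x ∈ Set.Ico ((n : ℝ) - H) n ∩ Set.Ico ((m : ℝ) - H) m from ⟨h1, h2⟩), one_mul]
    · rw [Set.indicator_of_notMem h2, Set.indicator_of_notMem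
        (show x ∉ Set.Ico ((n : ℝ) - H) n ∩ Set.Ico ((m : ℝ) - H) m from fun h => h2 h.2), mul_zero]
  · rw [Set.indicator_of_notMem h1, Set.indicator_of_notMem
      (show x ∉ Set.Ico ((n : ℝ) - H) n ∩ Set.Ico ((m : ℝ) - H) m from fun h => h1 h.1), zero_mul]

theorem ind_int (H : ℝ) (hH : 0 ≤ H) (n m : ℕ) :
    Integrable (fun x => ind H n x * ind H m x) ∧
    ∫ x, ind H n x * ind H m x ≤ if |(n : ℝ) - m| < H then H else 0 := by
  have hms : MeasurableSet (Set.Ico ((n : ℝ) - H) n ∩ Set.Ico ((m : ℝ) - H) m) :=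
    measurableSet_Ico.inter measurableSet_Ico
  have hfin : volume (Set.Ico ((n : ℝ) - H) n ∩ Set.Ico ((m : ℝ) - H) m) ≠ ⊤ :=
    ne_top_of_le_ne_top (by rw [Real.volume_Ico]; exact ENNReal.ofReal_ne_top)
      (measure_mono (Set.inter_subset_left (s := Set.Ico ((n : ℝ) - H) n)))
  have e : (fun x => ind H n x * ind H m x) =
      (Set.Ico ((n : ℝ) - H) n ∩ Set.Ico ((m : ℝ) - H) m).indicator (fun _ => (1 : ℝ)) :=
    funext fun x => ind_mul H n m x
  rw [e]
  refine ⟨(integrable_indicator_iff hms).2 (integrableOn_const hfin), ?_⟩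
  rw [integral_indicator hms, setIntegral_const, smul_eq_mul, mul_one]
  split_ifs with h
  · calc volume.real (Set.Ico ((n : ℝ) - H) n ∩ Set.Ico ((m : ℝ) - H) m)
        ≤ volume.real (Set.Ico ((n : ℝ) - H) n) :=
          measureReal_mono Set.inter_subset_left (by
            rw [Real.volume_Ico]; exact ENNReal.ofReal_ne_top)
      _ = H := by
          rw [Measure.real, Real.volume_Ico, ENNReal.toReal_ofReal (by linarith)]
          ring
  · have hem : Set.Ico ((n : ℝ) - H) n ∩ Set.Ico ((m : ℝ) - H) m = ∅ := by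
      ext x
      simp only [Set.mem_inter_iff, Set.mem_Ico, Set.mem_empty_iff_false, iff_false]
      rintro ⟨⟨h1, h2⟩, h3, h4⟩
      apply h
      rw [abs_lt]
      constructor <;> linarith
    rw [hem, measureReal_empty]

theorem int_sq (S : Finset ℕ) (c : ℕ → ℝ) (hc : ∀ n, 0 ≤ c n) (H : ℝ) (hH : 0 ≤ H) :
    Integrable (fun x => (∑ n ∈ S, c n * ind H n x) ^ 2) ∧
    ∫ x, (∑ n ∈ S, c n * ind H n x) ^ 2 ≤
      H * ∑ n ∈ S, ∑ m ∈ S, if |(n : ℝ) - m| < H then c n * c m else 0 := by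
  have e : (fun x => (∑ n ∈ S, c n * ind H n x) ^ 2) =
      fun x => ∑ n ∈ S, ∑ m ∈ S, (c n * c m) * (ind H n x * ind H m x) := by
    funext x
    rw [sq, Finset.sum_mul_sum]
    exact Finset.sum_congr rfl fun n _ => Finset.sum_congr rfl fun m _ => by ring
  rw [e]
  have hi : ∀ n m : ℕ, Integrable (fun x => (c n * c m) * (ind H n x * ind H m x)) :=
    fun n m => (ind_int H hH n m).1.const_mul _
  refine ⟨integrable_finsetSum _ fun n _ => integrable_finsetSum _ fun m _ => hi n m, ?_⟩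
  rw [integral_finsetSum _ fun n _ => integrable_finsetSum _ fun m _ => hi n m, Finset.mul_sum]
  refine Finset.sum_le_sum fun n _ => ?_
  rw [integral_finsetSum _ fun m _ => hi n m, Finset.mul_sum]
  refine Finset.sum_le_sum fun m _ => ?_
  rw [integral_const_mul]
  have h1 := (ind_int H hH n m).2
  have h2 : 0 ≤ c n * c m := mul_nonneg (hc n) (hc m)
  split_ifs at h1 ⊢ with h
  · nlinarith
  · have := mul_le_mul_of_nonneg_left h1 h2
    simpa using this

theorem near_sum (S : Finset ℕ) (c : ℕ → ℝ) (hc : ∀ n, 0 ≤ c n) (H : ℕ) :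
    ∑ n ∈ S, ∑ m ∈ S, (if |(n : ℝ) - m| < H then c n * c m else 0) ≤
      2 * ∑ h ∈ range H, ∑ n ∈ S, c n * c (n + h) := by
  have hA : ∀ n ∈ S, ∑ m ∈ S, (if n ≤ m ∧ m < n + H then c n * c m else 0) ≤
      ∑ h ∈ range H, c n * c (n + h) := by
    intro n _
    rw [← Finset.sum_filter]
    have h2 : ∑ h ∈ range H, c n * c (n + h) = ∑ y ∈ Ico n (n + H), c n * c y := by
      rw [Finset.sum_Ico_eq_sum_range, Nat.add_sub_cancel_left]
    rw [h2]
    apply Finset.sum_le_sum_of_subset_of_nonneg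
    · intro y hy
      rw [Finset.mem_filter] at hy
      rw [Finset.mem_Ico]
      exact hy.2
    · intro y _ _
      exact mul_nonneg (hc _) (hc _)
  have hA' : ∑ n ∈ S, ∑ m ∈ S, (if n ≤ m ∧ m < n + H then c n * c m else 0) ≤
      ∑ h ∈ range H, ∑ n ∈ S, c n * c (n + h) := by
    rw [Finset.sum_comm (s := range H)]
    exact Finset.sum_le_sum hA
  have hB : ∑ n ∈ S, ∑ m ∈ S, (if m ≤ n ∧ n < m + H then c n * c m else 0) =
      ∑ n ∈ S, ∑ m ∈ S, (if n ≤ m ∧ m < n + H then c n * c m else 0) := by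
    rw [Finset.sum_comm]
    refine Finset.sum_congr rfl fun x _ => Finset.sum_congr rfl fun y _ => ?_
    rw [mul_comm (c y) (c x)]
  calc _ ≤ ∑ n ∈ S, ∑ m ∈ S, ((if n ≤ m ∧ m < n + H then c n * c m else 0) +
          (if m ≤ n ∧ n < m + H then c n * c m else 0)) := by
        refine Finset.sum_le_sum fun n _ => Finset.sum_le_sum fun m _ => ?_
        have h0 : 0 ≤ c n * c m := mul_nonneg (hc _) (hc _)
        by_cases h : |(n : ℝ) - m| < H
        · rw [if_pos h]
          rw [abs_lt] at h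
          rcases le_total n m with h1 | h1
          · have h2 : m < n + H := by
              have : (m : ℝ) < n + H := by linarith
              exact_mod_cast this
            rw [if_pos ⟨h1, h2⟩]
            split_ifs <;> linarith
          · have h2 : n < m + H := by
              have : (n : ℝ) < m + H := by linarith
              exact_mod_cast this
            rw [if_pos (show m ≤ n ∧ n < m + H from ⟨h1, h2⟩)]
            split_ifs <;> linarith
        · rw [if_neg h]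
          split_ifs <;> linarith
    _ = ∑ n ∈ S, ∑ m ∈ S, (if n ≤ m ∧ m < n + H then c n * c m else 0) +
        ∑ n ∈ S, ∑ m ∈ S, (if m ≤ n ∧ n < m + H then c n * c m else 0) := by
        rw [← Finset.sum_add_distrib]
        refine Finset.sum_congr rfl fun x _ => ?_
        rw [← Finset.sum_add_distrib]
    _ ≤ _ := by
        rw [hB]
        linarith

theorem all_sum (S : Finset ℕ) (c : ℕ → ℝ) (hc : ∀ n, 0 ≤ c n) (H : ℝ) :
    ∑ n ∈ S, ∑ m ∈ S, (if |(n : ℝ) - m| < H then c n * c m else 0) ≤ (∑ n ∈ S, c n) ^ 2 := by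
  rw [sq, Finset.sum_mul_sum]
  refine Finset.sum_le_sum fun n _ => Finset.sum_le_sum fun m _ => ?_
  have h0 : 0 ≤ c n * c m := mul_nonneg (hc _) (hc _)
  split_ifs <;> linarith

/-- the increment of `psi` -/
theorem psi_min (Y x : ℝ) : Chebyshev.psi (min x Y) =
    ∑ n ∈ Ioc 0 ⌊Y⌋₊, (if (n : ℝ) ≤ x then ArithmeticFunction.vonMangoldt n else 0) := by
  unfold Chebyshev.psi
  rw [← Finset.sum_filter]
  refine Finset.sum_congr ?_ fun _ _ => rfl
  ext n
  rw [Finset.mem_filter, Finset.mem_Ioc, Finset.mem_Ioc]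
  constructor
  · rintro ⟨h1, h2⟩
    rw [Nat.le_floor_iff' h1.ne'] at h2
    refine ⟨⟨h1, ?_⟩, h2.trans (min_le_left _ _)⟩
    rw [Nat.le_floor_iff' h1.ne']
    exact h2.trans (min_le_right _ _)
  · rintro ⟨⟨h1, h2⟩, h3⟩
    rw [Nat.le_floor_iff' h1.ne'] at h2
    refine ⟨h1, ?_⟩
    rw [Nat.le_floor_iff' h1.ne']
    exact le_min h3 h2

theorem A_eq (Y : ℝ) (j : ℕ) (x : ℝ) : A (fun x => Chebyshev.psi (min x Y)) j x =
    (∑ n ∈ Ioc 0 ⌊Y⌋₊, ArithmeticFunction.vonMangoldt n * ind (2 ^ j) n x) / 2 ^ j := by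
  unfold A
  dsimp only
  rw [psi_min, psi_min, ← Finset.sum_sub_distrib]
  congr 1
  refine Finset.sum_congr rfl fun n _ => ?_
  have hp : (0 : ℝ) < 2 ^ j := by positivity
  unfold ind
  by_cases h1 : (n : ℝ) ≤ x
  · rw [if_pos h1, if_pos (by linarith), Set.indicator_of_notMem, mul_zero, sub_self]
    intro h
    exact absurd h.2 (not_lt.2 h1)
  · rw [if_neg h1, sub_zero]
    by_cases h2 : (n : ℝ) ≤ x + 2 ^ j
    · rw [if_pos h2, Set.indicator_of_mem, mul_one]
      exact ⟨by linarith, by linarith⟩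
    · rw [if_neg h2, Set.indicator_of_notMem, mul_zero]
      intro h
      exact h2 (by linarith [h.1])

theorem F_eq (Y : ℝ) (j : ℕ) : F (fun x => Chebyshev.psi (min x Y)) j =
    (∫ x, (∑ n ∈ Ioc 0 ⌊Y⌋₊, ArithmeticFunction.vonMangoldt n * ind (2 ^ j) n x) ^ 2) /
      (2 ^ j) ^ 2 := by
  unfold F
  rw [← integral_div]
  refine integral_congr_ae (Filter.Eventually.of_forall fun x => ?_)
  dsimp only
  rw [A_eq, div_pow]

/-- prime indicator -/
noncomputable def a (n : ℕ) : ℝ := if n.Prime then 1 else 0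

theorem a_nonneg (n : ℕ) : 0 ≤ a n := by unfold a; split_ifs <;> norm_num

theorem a_sum (N h : ℕ) : ∑ n ∈ Ioc 0 N, a n * a (n + h) =
    (#{q ∈ Icc 1 N | (q + 0).Prime ∧ (q + h).Prime} : ℝ) := by
  have e : ∀ n ∈ Ioc 0 N, a n * a (n + h) = if (n + 0).Prime ∧ (n + h).Prime then 1 else 0 := by
    intro n _
    unfold a
    rw [add_zero]
    by_cases h1 : n.Prime
    · by_cases h2 : (n + h).Prime
      · rw [if_pos h1, if_pos h2, if_pos ⟨h1, h2⟩, one_mul]
      · rw [if_neg h2, if_neg (show ¬ (n.Prime ∧ (n + h).Prime) from fun h' => h2 h'.2), mul_zero]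
    · rw [if_neg h1, if_neg (show ¬ (n.Prime ∧ (n + h).Prime) from fun h' => h1 h'.1), zero_mul]
  rw [Finset.sum_congr rfl e, ← Finset.sum_filter, Finset.sum_const, nsmul_eq_mul, mul_one]
  have e2 : Ioc 0 N = Icc 1 N := by
    ext n; rw [Finset.mem_Ioc, Finset.mem_Icc]; omega
  rw [e2]

end BaseH10

open BaseH10 in
theorem t_psibase : S_psibase := by
  obtain ⟨C2, hC2, x₀, hpair⟩ := Pool.Agent.H262R2.UK.pair_bound
  obtain ⟨C3, hC3, hmom⟩ := Pool.Agent.H646.MomentM.rat_moment 1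
  obtain ⟨C4, hC4⟩ := Chebyshev.psi_sub_theta_le_mul_sqrt
  set C1 : ℝ := 32 * Real.log 4 + 8 with hC1
  have hl4 : 0 ≤ Real.log 4 := Real.log_nonneg (by norm_num)
  have hC1p : 0 < C1 := by positivity
  have hpsi0 := Chebyshev.psi_nonneg x₀
  refine ⟨16 * (6 * C1 + C2 * C3) + 8 * C4 ^ 2 + Chebyshev.psi x₀ ^ 2, by positivity, ?_⟩
  intro X hX j hj1 hj2
  set Hn : ℕ := 2 ^ j with hHn
  have hH' : ((Hn : ℕ) : ℝ) = 2 ^ j := by rw [hHn]; push_cast; ring
  have hH1 : (1 : ℝ) ≤ 2 ^ j := one_le_pow₀ (by norm_num)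
  have hH0 : (0 : ℝ) < 2 ^ j := by linarith
  set N := ⌊4 * X⌋₊ with hN
  have hNX : (N : ℝ) ≤ 4 * X := Nat.floor_le (by linarith)
  have hN8 : 8 ≤ N := by
    rw [hN, Nat.le_floor_iff (by linarith)]
    push_cast; linarith
  have hN8' : (8 : ℝ) ≤ N := by exact_mod_cast hN8
  have hlogN : 0 < Real.log N := Real.log_pos (by linarith)
  have hlogX : Real.log 2 ≤ Real.log X := Real.log_le_log (by norm_num) hX
  have hlogN2 : Real.log N ≤ 6 * 2 ^ j := by
    have h1 : Real.log N ≤ Real.log (4 * X) := Real.log_le_log (by linarith) hNX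
    rw [Real.log_mul (by norm_num) (by linarith), show (4 : ℝ) = 2 ^ 2 by norm_num,
      Real.log_pow] at h1
    push_cast at h1
    linarith
  rw [F_eq]
  have hΛ : ∀ n : ℕ, 0 ≤ ArithmeticFunction.vonMangoldt n :=
    fun n => ArithmeticFunction.vonMangoldt_nonneg
  by_cases hx : x₀ ≤ N
  · -- large `X`
    set c1 : ℕ → ℝ := fun n => if n.Prime then ArithmeticFunction.vonMangoldt n else 0 with hc1
    set c2 : ℕ → ℝ := fun n => if n.Prime then 0 else ArithmeticFunction.vonMangoldt n with hc2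
    have hc1n : ∀ n, 0 ≤ c1 n := fun n => by
      rw [hc1]; dsimp only; split_ifs
      · exact hΛ n
      · exact le_rfl
    have hc2n : ∀ n, 0 ≤ c2 n := fun n => by
      rw [hc2]; dsimp only; split_ifs
      · exact le_rfl
      · exact hΛ n
    have hI1 := int_sq (Ioc 0 N) c1 hc1n (2 ^ j) hH0.le
    have hI2 := int_sq (Ioc 0 N) c2 hc2n (2 ^ j) hH0.le
    have hsplit : ∫ x, (∑ n ∈ Ioc 0 N, ArithmeticFunction.vonMangoldt n * ind (2 ^ j) n x) ^ 2 ≤
        2 * (∫ x, (∑ n ∈ Ioc 0 N, c1 n * ind (2 ^ j) n x) ^ 2) +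
        2 * ∫ x, (∑ n ∈ Ioc 0 N, c2 n * ind (2 ^ j) n x) ^ 2 := by
      rw [← integral_const_mul, ← integral_const_mul, ← integral_add (hI1.1.const_mul 2)
        (hI2.1.const_mul 2)]
      refine integral_mono (int_sq (Ioc 0 N) _ hΛ (2 ^ j) hH0.le).1
        ((hI1.1.const_mul 2).add (hI2.1.const_mul 2)) fun x => ?_
      dsimp only
      have e : ∑ n ∈ Ioc 0 N, ArithmeticFunction.vonMangoldt n * ind (2 ^ j) n x =
          ∑ n ∈ Ioc 0 N, c1 n * ind (2 ^ j) n x + ∑ n ∈ Ioc 0 N, c2 n * ind (2 ^ j) n x := by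
        rw [← Finset.sum_add_distrib]
        refine Finset.sum_congr rfl fun n _ => ?_
        rw [hc1, hc2]
        dsimp only
        split_ifs <;> ring
      rw [e]
      nlinarith [sq_nonneg (∑ n ∈ Ioc 0 N, c1 n * ind (2 ^ j) n x -
        ∑ n ∈ Ioc 0 N, c2 n * ind (2 ^ j) n x)]
    -- prime powers
    have hB : ∫ x, (∑ n ∈ Ioc 0 N, c2 n * ind (2 ^ j) n x) ^ 2 ≤ 2 ^ j * (C4 ^ 2 * N) := by
      refine hI2.2.trans ?_
      apply mul_le_mul_of_nonneg_left _ hH0.le
      refine (all_sum _ _ hc2n _).trans ?_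
      have h1 := hC4 N
      rw [Chebyshev.psi_sub_theta_eq_sum_not_prime, Nat.floor_natCast, Finset.sum_filter] at h1
      have h2 : ∑ n ∈ Ioc 0 N, c2 n =
          ∑ n ∈ Ioc 0 N, if ¬n.Prime then ArithmeticFunction.vonMangoldt n else 0 := by
        refine Finset.sum_congr rfl fun n _ => ?_
        rw [hc2]
        dsimp only
        split_ifs <;> rfl
      rw [← h2] at h1
      have h3 : 0 ≤ ∑ n ∈ Ioc 0 N, c2 n := Finset.sum_nonneg fun n _ => hc2n n
      calc (∑ n ∈ Ioc 0 N, c2 n) ^ 2 ≤ (C4 * √(N : ℝ)) ^ 2 := pow_le_pow_left₀ h3 h1 2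
        _ = C4 ^ 2 * N := by rw [mul_pow, Real.sq_sqrt (by linarith)]
    -- primes
    have hA1 : ∑ n ∈ Ioc 0 N, ∑ m ∈ Ioc 0 N, (if |(n : ℝ) - m| < 2 ^ j then c1 n * c1 m else 0) ≤
        Real.log N ^ 2 * ∑ n ∈ Ioc 0 N, ∑ m ∈ Ioc 0 N,
          (if |(n : ℝ) - m| < Hn then a n * a m else 0) := by
      have hle : ∀ n ∈ Ioc 0 N, c1 n ≤ Real.log N * a n := by
        intro n hn
        rw [Finset.mem_Ioc] at hn
        rw [hc1]
        unfold a
        dsimp only
        split_ifs with h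
        · rw [ArithmeticFunction.vonMangoldt_apply_prime h, mul_one]
          apply Real.log_le_log (by exact_mod_cast hn.1)
          exact_mod_cast hn.2
        · rw [mul_zero]
      rw [Finset.mul_sum]
      refine Finset.sum_le_sum fun n hn => ?_
      rw [Finset.mul_sum]
      refine Finset.sum_le_sum fun m hm => ?_
      rw [hH']
      split_ifs with h
      · calc c1 n * c1 m ≤ (Real.log N * a n) * (Real.log N * a m) :=
            mul_le_mul (hle n hn) (hle m hm) (hc1n m) (mul_nonneg hlogN.le (a_nonneg n))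
          _ = _ := by ring
      · rw [mul_zero]
    have hA2 := near_sum (Ioc 0 N) a a_nonneg Hn
    have hA3 : ∑ h ∈ range Hn, ∑ n ∈ Ioc 0 N, a n * a (n + h) ≤
        C1 * N / Real.log N + C2 * C3 * N / Real.log N ^ 2 * 2 ^ j := by
      have hpos : 0 < Hn := by positivity
      obtain ⟨D, hDj⟩ : ∃ D, Hn = D + 1 := ⟨Hn - 1, by omega⟩
      rw [hDj, Finset.sum_range_succ', add_comm]
      apply add_le_add
      · rw [a_sum]
        refine le_trans ?_ (Pool.Agent.NH18.SC.BaseH89.pi_le N (by omega))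
        have : (#{q ∈ Icc 1 N | (q + 0).Prime ∧ (q + 0).Prime}) ≤
            (#{q ∈ Icc 1 (16 * N) | (q + 0).Prime ∧ (q + 0).Prime}) :=
          Finset.card_le_card (Finset.filter_subset_filter _ (Finset.Icc_subset_Icc_right (by omega)))
        exact_mod_cast this
      · have h5 : ∀ h ∈ range D, ∑ n ∈ Ioc 0 N, a n * a (n + (h + 1)) ≤
            C2 * N / Real.log N ^ 2 * Pool.Agent.H646.rat (h + 1) := by
          intro h _
          rw [a_sum]
          exact hpair N hx 0 (h + 1) (Nat.succ_pos h)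
        refine (Finset.sum_le_sum h5).trans ?_
        rw [← Finset.mul_sum]
        have h6 : ∑ h ∈ range D, Pool.Agent.H646.rat (h + 1) ≤ C3 * D := by
          have h7 := hmom D
          simp only [pow_one] at h7
          refine le_trans (le_of_eq ?_) h7
          rw [Finset.range_eq_Ico,
            Finset.sum_Ico_add' (fun n => Pool.Agent.H646.rat n) 0 D 1]
          refine Finset.sum_congr ?_ fun _ _ => rfl
          ext n
          rw [Finset.mem_Ico, Finset.mem_Icc]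
          omega
        have h8 : (D : ℝ) ≤ ((2 : ℝ) ^ j) := by
          rw [← hH', hDj]; push_cast; linarith
        calc C2 * N / Real.log N ^ 2 * ∑ h ∈ range D, Pool.Agent.H646.rat (h + 1)
            ≤ C2 * N / Real.log N ^ 2 * (C3 * 2 ^ j) := by
              apply mul_le_mul_of_nonneg_left _ (by positivity)
              exact h6.trans (mul_le_mul_of_nonneg_left h8 hC3.le)
          _ = _ := by ring
    have hA : ∫ x, (∑ n ∈ Ioc 0 N, c1 n * ind (2 ^ j) n x) ^ 2 ≤
        2 * (2 ^ j) ^ 2 * (6 * C1 + C2 * C3) * N := by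
      refine hI1.2.trans ?_
      have h1 : ∑ n ∈ Ioc 0 N, ∑ m ∈ Ioc 0 N, (if |(n : ℝ) - m| < 2 ^ j then c1 n * c1 m else 0) ≤
          Real.log N ^ 2 * (2 * (C1 * N / Real.log N + C2 * C3 * N / Real.log N ^ 2 * 2 ^ j)) := by
        refine hA1.trans ?_
        apply mul_le_mul_of_nonneg_left _ (by positivity)
        refine hA2.trans ?_
        linarith
      calc 2 ^ j * ∑ n ∈ Ioc 0 N, ∑ m ∈ Ioc 0 N,
            (if |(n : ℝ) - m| < 2 ^ j then c1 n * c1 m else 0)
          ≤ 2 ^ j * (Real.log N ^ 2 * (2 * (C1 * N / Real.log N +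
              C2 * C3 * N / Real.log N ^ 2 * 2 ^ j))) := mul_le_mul_of_nonneg_left h1 hH0.le
        _ = 2 * 2 ^ j * (C1 * N * Real.log N + C2 * C3 * N * 2 ^ j) := by
            field_simp
        _ ≤ 2 * 2 ^ j * (C1 * N * (6 * 2 ^ j) + C2 * C3 * N * 2 ^ j) := by
            apply mul_le_mul_of_nonneg_left _ (by positivity)
            have := mul_le_mul_of_nonneg_left hlogN2 (show 0 ≤ C1 * N by positivity)
            linarith
        _ = _ := by ring
    rw [div_le_iff₀ (by positivity)]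
    have hfin : (0 : ℝ) ≤ Chebyshev.psi x₀ ^ 2 * X * (2 ^ j) ^ 2 := by positivity
    have h10 : (2 : ℝ) ^ j ≤ (2 ^ j) ^ 2 := by nlinarith
    have h11 : (2 : ℝ) ^ j * (C4 ^ 2 * N) ≤ (2 ^ j) ^ 2 * (C4 ^ 2 * (4 * X)) :=
      mul_le_mul h10 (mul_le_mul_of_nonneg_left hNX (sq_nonneg C4)) (by positivity) (by positivity)
    have h12 : 2 * (2 ^ j) ^ 2 * (6 * C1 + C2 * C3) * (N : ℝ) ≤
        2 * (2 ^ j) ^ 2 * (6 * C1 + C2 * C3) * (4 * X) :=
      mul_le_mul_of_nonneg_left hNX (by positivity)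
    calc _ ≤ 2 * (2 * (2 ^ j) ^ 2 * (6 * C1 + C2 * C3) * (4 * X)) +
          2 * ((2 ^ j) ^ 2 * (C4 ^ 2 * (4 * X))) := by linarith
      _ ≤ _ := by nlinarith
  · -- small `X`
    have hx' : (N : ℝ) ≤ x₀ := by
      have : N ≤ x₀ := by omega
      exact_mod_cast this
    have hI := (int_sq (Ioc 0 N) _ hΛ (2 ^ j) hH0.le).2.trans
      (mul_le_mul_of_nonneg_left (all_sum _ _ hΛ _) hH0.le)
    have h1 : ∑ n ∈ Ioc 0 N, ArithmeticFunction.vonMangoldt n ≤ Chebyshev.psi x₀ := by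
      have h2 : Chebyshev.psi N ≤ Chebyshev.psi x₀ := Chebyshev.psi_mono hx'
      unfold Chebyshev.psi at h2 ⊢
      rwa [Nat.floor_natCast] at h2
    have h0 : 0 ≤ ∑ n ∈ Ioc 0 N, ArithmeticFunction.vonMangoldt n :=
      Finset.sum_nonneg fun n _ => hΛ n
    have h2 := pow_le_pow_left₀ h0 h1 2
    rw [div_le_iff₀ (by positivity)]
    have h10 : (2 : ℝ) ^ j ≤ (2 ^ j) ^ 2 := by nlinarith
    calc _ ≤ 2 ^ j * (∑ n ∈ Ioc 0 N, ArithmeticFunction.vonMangoldt n) ^ 2 := hI
      _ ≤ (2 ^ j) ^ 2 * Chebyshev.psi x₀ ^ 2 :=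
          mul_le_mul h10 h2 (by positivity) (by positivity)
      _ ≤ (2 ^ j) ^ 2 * Chebyshev.psi x₀ ^ 2 * X := by
          have : 0 ≤ (2 ^ j) ^ 2 * Chebyshev.psi x₀ ^ 2 := by positivity
          nlinarith
      _ ≤ _ := by
          have : 0 ≤ (16 * (6 * C1 + C2 * C3) + 8 * C4 ^ 2) * X * (2 ^ j) ^ 2 := by positivity
          linarith

end Pool.Agent.NH18.SV
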