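import Pool.Agent.NH18.SV.Stm

set_option autoImplicit false

/-!
# Centred intervals of two scales (SV-2)
-/

namespace Pool.Agent.NH18.SV

open MeasureTheory

namespace CentH88

/-- Averages of averages. -/
theorem A_avg (g : ℝ → ℝ) (i L : ℕ) (x : ℝ) :
    A g (i + L) x = (∑ t ∈ Finset.range (2 ^ L), A g i (x + t * 2 ^ i)) / 2 ^ L := by
  unfold A
  rw [← Finset.sum_div]
  have h1 : ∀ t ∈ Finset.range (2 ^ L), g (x + t * 2 ^ i + 2 ^ i) - g (x + t * 2 ^ i) =
      (fun t : ℕ => g (x + t * 2 ^ i)) (t + 1) - (fun t : ℕ => g (x + t * 2 ^ i)) t := by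
    intro t _
    simp only
    congr 2
    push_cast
    ring
  rw [Finset.sum_congr rfl h1, Finset.sum_range_sub (fun t : ℕ => g (x + t * 2 ^ i))]
  simp only [Nat.cast_pow, Nat.cast_ofNat, Nat.cast_zero, zero_mul, add_zero]
  rw [div_div, pow_add]
  congr 1
  congr 2
  ring

theorem sum_shift (f : ℕ → ℝ) (hf : ∀ b, 0 ≤ f b) (m c : ℕ) (hc : c ≤ 2 * m) :
    ∑ r ∈ Finset.range (2 * m), f (c + r) ≤ ∑ b ∈ Finset.range (4 * m), f b := by
  have h1 : ∑ b ∈ Finset.Ico c (c + 2 * m), f b = ∑ r ∈ Finset.range (2 * m), f (c + r) := by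
    rw [Finset.sum_Ico_eq_sum_range]
    congr 2
    omega
  rw [← h1]
  refine Finset.sum_le_sum_of_subset_of_nonneg (fun b hb => ?_) fun b _ _ => hf b
  rw [Finset.mem_Ico] at hb
  rw [Finset.mem_range]
  omega

theorem pointwise (u : ℕ → ℝ) (m : ℕ) (hm : 0 < m) :
    ∑ r ∈ Finset.range (2 * m), ((u (m - 1 + r) + u (m + r)) / 2 -
      (∑ t ∈ Finset.range (2 * m), u (r + t)) / (2 * m)) ^ 2 ≤
    4 * ∑ b ∈ Finset.range (4 * m), u b ^ 2 := by
  have hm' : (0 : ℝ) < m := by exact_mod_cast hm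
  set Sg : ℝ := ∑ b ∈ Finset.range (4 * m), u b ^ 2 with hS
  have h1 : ∀ r ∈ Finset.range (2 * m), ((u (m - 1 + r) + u (m + r)) / 2 -
      (∑ t ∈ Finset.range (2 * m), u (r + t)) / (2 * m)) ^ 2 ≤
      u (m - 1 + r) ^ 2 + u (m + r) ^ 2 + Sg / m := by
    intro r hr
    rw [Finset.mem_range] at hr
    have h2 : (∑ t ∈ Finset.range (2 * m), u (r + t)) ^ 2 ≤
        (2 * m) * ∑ t ∈ Finset.range (2 * m), u (r + t) ^ 2 := by
      have h3 := sq_sum_le_card_mul_sum_sq (s := Finset.range (2 * m)) (f := fun t => u (r + t))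
      rw [Finset.card_range] at h3
      push_cast at h3
      exact h3
    have h4 : ∑ t ∈ Finset.range (2 * m), u (r + t) ^ 2 ≤ Sg :=
      sum_shift (fun b => u b ^ 2) (fun b => sq_nonneg _) m r (by omega)
    have h5 : ((∑ t ∈ Finset.range (2 * m), u (r + t)) / (2 * m)) ^ 2 ≤ Sg / (2 * m) := by
      rw [div_pow, div_le_div_iff₀ (by positivity) (by positivity)]
      nlinarith [mul_le_mul_of_nonneg_left h4 (by positivity : (0 : ℝ) ≤ 2 * m)]
    have h6 : Sg / m = 2 * (Sg / (2 * m)) := by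
      field_simp
    rw [h6]
    generalize (∑ t ∈ Finset.range (2 * m), u (r + t)) / (2 * m) = w at h5 ⊢
    nlinarith [sq_nonneg ((u (m - 1 + r) + u (m + r)) / 2 + w),
      sq_nonneg (u (m - 1 + r) - u (m + r))]
  refine (Finset.sum_le_sum h1).trans ?_
  rw [Finset.sum_add_distrib, Finset.sum_add_distrib, Finset.sum_const, Finset.card_range]
  have h7 := sum_shift (fun b => u b ^ 2) (fun b => sq_nonneg _) m (m - 1) (by omega)
  have h8 := sum_shift (fun b => u b ^ 2) (fun b => sq_nonneg _) m m (by omega)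
  have h7' : ∑ r ∈ Finset.range (2 * m), u (m - 1 + r) ^ 2 ≤ Sg := h7
  have h8' : ∑ r ∈ Finset.range (2 * m), u (m + r) ^ 2 ≤ Sg := h8
  have h9 : (2 * m) • (Sg / (m : ℝ)) = 2 * Sg := by
    rw [nsmul_eq_mul]
    push_cast
    field_simp
  rw [h9]
  linarith

end CentH88

open CentH88

theorem t_cent (h : S_var) : S_cent := by
  intro g M hg j j' hj hjj'
  obtain ⟨i, rfl⟩ : ∃ i, j = i + 1 := ⟨j - 1, by omega⟩
  obtain ⟨L, rfl⟩ : ∃ L, j' = i + 1 + L := ⟨j' - (i + 1), by omega⟩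
  have e1 : i + 1 - 1 = i := rfl
  have e2 : i + 1 + L + 1 = i + (L + 2) := by omega
  rw [e1, e2]
  obtain ⟨hint, hvar⟩ := h g M hg i (L + 2)
  have hintj := (h g M hg (i + 1) 0).1
  -- notation
  set D : ℝ → ℝ := fun y => A g (i + 1) (y - 2 ^ (i + 1) / 2) -
    A g (i + 1 + L) (y - 2 ^ (i + 1 + L) / 2) with hD
  have hm : 0 < 2 ^ L := by positivity
  -- the value at the translates
  have hDx : ∀ (x : ℝ) (r : ℕ), D (x + ((2 ^ L + r : ℕ) : ℝ) * 2 ^ i) ^ 2 =
      ((((A g i (x + ((2 ^ L - 1 + r : ℕ) : ℝ) * 2 ^ i) - A g (i + (L + 2)) x)) +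
        (A g i (x + ((2 ^ L + r : ℕ) : ℝ) * 2 ^ i) - A g (i + (L + 2)) x)) / 2 -
      (∑ t ∈ Finset.range (2 * 2 ^ L), (A g i (x + ((r + t : ℕ) : ℝ) * 2 ^ i) -
        A g (i + (L + 2)) x)) / (2 * (2 ^ L : ℕ))) ^ 2 := by
    intro x r
    congr 1
    have h1 : x + ((2 ^ L + r : ℕ) : ℝ) * 2 ^ i - 2 ^ (i + 1) / 2 =
        x + ((2 ^ L - 1 + r : ℕ) : ℝ) * 2 ^ i := by
      have h2 : (2 ^ L + r : ℕ) = (2 ^ L - 1 + r) + 1 := by omega
      rw [h2]
      push_cast
      rw [pow_succ]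
      ring
    have h3 : x + ((2 ^ L + r : ℕ) : ℝ) * 2 ^ i - 2 ^ (i + 1 + L) / 2 = x + (r : ℝ) * 2 ^ i := by
      push_cast
      rw [pow_add, pow_succ]
      ring
    have h4 : A g (i + 1) (x + ((2 ^ L - 1 + r : ℕ) : ℝ) * 2 ^ i) =
        (A g i (x + ((2 ^ L - 1 + r : ℕ) : ℝ) * 2 ^ i) +
          A g i (x + ((2 ^ L + r : ℕ) : ℝ) * 2 ^ i)) / 2 := by
      rw [A_avg]
      have h2 : (2 ^ L + r : ℕ) = (2 ^ L - 1 + r) + 1 := by omega
      rw [h2]
      simp only [pow_one, Finset.sum_range_succ, Finset.sum_range_zero, zero_add, Nat.cast_zero,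
        zero_mul, add_zero, Nat.cast_one, one_mul]
      congr 3
      push_cast
      ring
    have h5 : A g (i + 1 + L) (x + (r : ℝ) * 2 ^ i) =
        (∑ t ∈ Finset.range (2 * 2 ^ L), A g i (x + ((r + t : ℕ) : ℝ) * 2 ^ i)) /
          (2 * (2 ^ L : ℕ)) := by
      have h6 : i + 1 + L = i + (L + 1) := by omega
      rw [h6, A_avg]
      have h7 : (2 : ℕ) ^ (L + 1) = 2 * 2 ^ L := by ring
      have h8 : (2 : ℝ) ^ (L + 1) = 2 * (2 ^ L : ℕ) := by push_cast; ring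
      rw [h7, h8]
      congr 1
      refine Finset.sum_congr rfl fun t _ => ?_
      congr 1
      push_cast
      ring
    rw [hD]
    simp only
    rw [h1, h3, h4, h5, Finset.sum_sub_distrib, Finset.sum_const, Finset.card_range, nsmul_eq_mul]
    have h9 : (0 : ℝ) < 2 * (2 ^ L : ℕ) := by positivity
    push_cast
    field_simp
    ring
  have hDint : Integrable (fun y => D y ^ 2) := by
    have h1 := hintj (-(2 ^ (i + 1) / 2)) (i + 1 + L) (-(2 ^ (i + 1 + L) / 2))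
    simpa only [← sub_eq_add_neg] using h1
  have hDr : ∀ c : ℝ, ∫ x, D (x + c) ^ 2 = ∫ x, D x ^ 2 := fun c =>
    integral_add_right_eq_self (fun x => D x ^ 2) c
  have heb : ∀ b : ℕ, Integrable (fun x => (A g i (x + b * 2 ^ i) - A g (i + (L + 2)) x) ^ 2) := by
    intro b
    have h1 := hint (b * 2 ^ i) (i + (L + 2)) 0
    simpa only [add_zero] using h1
  have key : ∑ r ∈ Finset.range (2 * 2 ^ L), ∫ x, D (x + ((2 ^ L + r : ℕ) : ℝ) * 2 ^ i) ^ 2 ≤
      4 * ∑ b ∈ Finset.range (4 * 2 ^ L),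
        ∫ x, (A g i (x + b * 2 ^ i) - A g (i + (L + 2)) x) ^ 2 := by
    rw [← integral_finsetSum _ fun r _ => hDint.comp_add_right _,
      ← integral_finsetSum _ fun b _ => heb b, ← integral_const_mul]
    refine integral_mono (integrable_finsetSum _ fun r _ => hDint.comp_add_right _)
      ((integrable_finsetSum _ fun b _ => heb b).const_mul 4) fun x => ?_
    simp only
    rw [Finset.sum_congr rfl fun r _ => hDx x r]
    exact pointwise (fun b => A g i (x + (b : ℝ) * 2 ^ i) - A g (i + (L + 2)) x) (2 ^ L) hm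
  simp only [hDr] at key
  rw [Finset.sum_const, Finset.card_range, nsmul_eq_mul] at key
  have e3 : (2 : ℕ) ^ (L + 2) = 4 * 2 ^ L := by ring
  rw [e3] at hvar
  rw [hvar] at key
  have e4 : (2 : ℝ) ^ (L + 2) = 4 * 2 ^ L := by ring
  rw [e4] at key
  push_cast at key
  have hL : (0 : ℝ) < 2 ^ L := by positivity
  nlinarith [key, hL]

end Pool.Agent.NH18.SV
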