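import Pool.Agent.NH18.SV.Stm

/-!
# Plateaus of the variance of primes in short intervals: assembly
-/

namespace Pool.Agent.NH18.SV

open MeasureTheory

theorem F_nonneg (g : ℝ → ℝ) (j : ℕ) : 0 ≤ F g j := integral_nonneg fun _ => sq_nonneg _

theorem F_anti (hv : S_var) {g : ℝ → ℝ} {M : ℝ} (hg : Adm g M) (j : ℕ) : F g (j + 1) ≤ F g j := by
  have h := (hv g M hg j 1).2
  have h0 : 0 ≤ ∑ b ∈ Finset.range (2 ^ 1), ∫ x, (A g j (x + b * 2 ^ j) - A g (j + 1) x) ^ 2 :=
    Finset.sum_nonneg fun b _ => integral_nonneg fun _ => sq_nonneg _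
  rw [h] at h0
  have h1 : 0 ≤ F g j - F g (j + 1) := by
    by_contra hc
    push Not at hc
    nlinarith
  linarith

theorem F_anti' (hv : S_var) {g : ℝ → ℝ} {M : ℝ} (hg : Adm g M) {i j : ℕ} (hij : i ≤ j) :
    F g j ≤ F g i := by
  induction j, hij using Nat.le_induction with
  | base => exact le_rfl
  | succ j _ ih => exact (F_anti hv hg j).trans ih

/-- the number of the descents of an antitone sequence of natural numbers -/
theorem card_descents (t : ℕ → ℕ) (i₀ : ℕ) (ht : ∀ i, i₀ ≤ i → t (i + 1) ≤ t i) (R : ℕ) :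
    ((Finset.Ico i₀ (i₀ + R)).filter (fun i => t (i + 1) ≠ t i)).card + t (i₀ + R) ≤ t i₀ := by
  induction R with
  | zero => simp
  | succ R ih =>
    have h1 := ht (i₀ + R) (by omega)
    have hI : Finset.Ico i₀ (i₀ + (R + 1)) = insert (i₀ + R) (Finset.Ico i₀ (i₀ + R)) := by
      ext k; simp only [Finset.mem_Ico, Finset.mem_insert]; omega
    rw [hI, ← Nat.add_assoc, Finset.filter_insert]
    split_ifs with h2
    · rw [Finset.card_insert_of_notMem (by simp)]
      omega
    · have h3 : t (i₀ + R + 1) = t (i₀ + R) := by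
        by_contra h; exact h2 h
      omega

theorem const_of_no_descent (t : ℕ → ℕ) {i j : ℕ} (hij : i ≤ j)
    (h : ∀ k, i ≤ k → k < j → t (k + 1) = t k) : t j = t i := by
  induction j, hij using Nat.le_induction with
  | base => rfl
  | succ j hj ih => rw [h j hj (by omega), ih (fun k h1 h2 => h k h1 (by omega))]

theorem adm_psi {X : ℝ} (_hX : 2 ≤ X) : Adm (fun x => Chebyshev.psi (min x (4 * X))) (4 * X) := by
  refine ⟨?_, ?_, ?_⟩
  · intro x y hxy
    exact Chebyshev.psi_mono (min_le_min_right _ hxy)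
  · intro x hx
    exact Chebyshev.psi_eq_zero_of_le_one (by
      have := min_le_left x (4 * X); linarith)
  · intro x hx
    simp only [min_self, min_eq_right hx]

/-- centred intervals -/
noncomputable def psiC (x H : ℝ) : ℝ := Chebyshev.psi (x + H / 2) - Chebyshev.psi (x - H / 2)

theorem main (hv : S_var) (hc : S_cent) (hb : S_psibase) :
    ∃ C : ℝ, 0 < C ∧ ∀ X : ℝ, 2 ≤ X → ∀ δ : ℝ, 0 < δ → δ ≤ 1 → ∃ B : Finset ℕ,
      (B.card : ℝ) ≤ C / δ ∧ ∀ j j' : ℕ, j ≤ j' → Real.log X ≤ 2 ^ j → (2 : ℝ) ^ j' ≤ X →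
        (∀ i, j ≤ i → i ≤ j' → i ∉ B) →
        (1 / X) * ∫ x in (1)..X, (psiC x (2 ^ j) / 2 ^ j - psiC x (2 ^ j') / 2 ^ j') ^ 2 ≤ δ := by
  obtain ⟨C, hC, hbase⟩ := hb
  refine ⟨16 * C + 1, by positivity, ?_⟩
  intro X hX δ hδ hδ1
  have hX0 : 0 < X := by linarith
  set g : ℝ → ℝ := fun x => Chebyshev.psi (min x (4 * X)) with hg
  have hadm : Adm g (4 * X) := adm_psi hX
  -- the first scale
  have hex : ∃ i : ℕ, Real.log X ≤ 2 * 2 ^ i := by
    obtain ⟨i, hi⟩ := pow_unbounded_of_one_lt (Real.log X) (by norm_num : (1 : ℝ) < 2)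
    exact ⟨i, by have : (0 : ℝ) < 2 ^ i := by positivity
                 linarith⟩
  obtain ⟨i₀, hi₀, hmin⟩ : ∃ i₀ : ℕ, Real.log X ≤ 2 * 2 ^ i₀ ∧
      ∀ i : ℕ, Real.log X ≤ 2 * 2 ^ i → i₀ ≤ i := by
    classical
    exact ⟨Nat.find hex, Nat.find_spec hex, fun i hi => Nat.find_min' hex hi⟩
  obtain ⟨R, hR⟩ := pow_unbounded_of_one_lt X (by norm_num : (1 : ℝ) < 2)
  set t : ℕ → ℕ := fun i => ⌊8 * F g i / (δ * X)⌋₊ with ht
  have htanti : ∀ i, i₀ ≤ i → t (i + 1) ≤ t i := by
    intro i _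
    apply Nat.floor_mono
    exact div_le_div_of_nonneg_right (by linarith [F_anti hv hadm i]) (by positivity)
  set B₀ := (Finset.Ico i₀ (i₀ + R)).filter (fun i => t (i + 1) ≠ t i) with hB₀
  refine ⟨insert 0 (B₀ ∪ B₀.image (fun i => i + 1)), ?_, ?_⟩
  · -- the size
    by_cases hsc : (2 : ℝ) ^ i₀ ≤ X
    · have h1 : B₀.card + t (i₀ + R) ≤ t i₀ := card_descents t i₀ htanti R
      have h2 : (t i₀ : ℝ) ≤ 8 * F g i₀ / (δ * X) :=
        Nat.floor_le (by have := F_nonneg g i₀; positivity)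
      have h3 : 8 * F g i₀ / (δ * X) ≤ 8 * C / δ := by
        have h4 := hbase X hX i₀ hi₀ hsc
        rw [div_le_div_iff₀ (by positivity) hδ]
        have h5 : 8 * F g i₀ * δ ≤ 8 * (C * X) * δ := by
          have : F g i₀ ≤ C * X := h4
          nlinarith
        linarith
      have h4 : ((insert 0 (B₀ ∪ B₀.image (fun i => i + 1))).card : ℝ) ≤ 2 * B₀.card + 1 := by
        have u1 := Finset.card_insert_le 0 (B₀ ∪ B₀.image (fun i => i + 1))
        have u2 := Finset.card_union_le B₀ (B₀.image (fun i => i + 1))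
        have u3 : (B₀.image (fun i => i + 1)).card ≤ B₀.card := Finset.card_image_le
        have : (insert 0 (B₀ ∪ B₀.image (fun i => i + 1))).card ≤ 2 * B₀.card + 1 := by omega
        exact_mod_cast this
      have h5 : (B₀.card : ℝ) ≤ t i₀ := by
        have : B₀.card ≤ t i₀ := by omega
        exact_mod_cast this
      have h6 : (1 : ℝ) ≤ 1 / δ := by rw [le_div_iff₀ hδ]; linarith
      have h7 : (16 * C + 1) / δ = 2 * (8 * C / δ) + 1 / δ := by ring
      rw [h7]; linarith
    · -- impossible: 2 ^ i₀ ≤ max 1 (log X) ≤ X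
      exfalso
      apply hsc
      rcases Nat.eq_zero_or_pos i₀ with h0 | h0
      · rw [h0]; norm_num; linarith
      · have h1 : ¬ Real.log X ≤ 2 * 2 ^ (i₀ - 1) := by
          intro h
          have := hmin _ h
          omega
        have h2 : (2 : ℝ) ^ i₀ = 2 * 2 ^ (i₀ - 1) := by
          rw [← pow_succ']; congr 1; omega
        have h3 := Real.log_le_self hX0.le
        push Not at h1
        linarith
  · intro j j' hjj' hj hj' hno
    have hj0 : 1 ≤ j := by
      by_contra h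
      have : j = 0 := by omega
      exact hno j le_rfl hjj' (by rw [this]; exact Finset.mem_insert_self _ _)
    have hi₀j : i₀ ≤ j - 1 := by
      apply hmin
      have h2 : (2 : ℝ) ^ j = 2 * 2 ^ (j - 1) := by
        rw [← pow_succ']; congr 1; omega
      rw [h2] at hj
      exact hj
    have hj'R : j' < R := by
      have : (2 : ℝ) ^ j' < 2 ^ R := lt_of_le_of_lt hj' hR
      exact (pow_lt_pow_iff_right₀ (by norm_num : (1 : ℝ) < 2)).1 this
    have hconst : t (j' + 1) = t (j - 1) := by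
      refine const_of_no_descent t (by omega) fun k h1 h2 => ?_
      by_contra hne
      have hk : k ∈ B₀ := by
        rw [hB₀, Finset.mem_filter, Finset.mem_Ico]
        exact ⟨⟨by omega, by omega⟩, hne⟩
      rcases Nat.lt_or_ge k j with h3 | h3
      · refine hno (k + 1) (by omega) (by omega) ?_
        rw [Finset.mem_insert, Finset.mem_union, Finset.mem_image]
        exact Or.inr (Or.inr ⟨k, hk, rfl⟩)
      · refine hno k h3 (by omega) ?_
        rw [Finset.mem_insert, Finset.mem_union]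
        exact Or.inr (Or.inl hk)
    have hdiff : 8 * (F g (j - 1) - F g (j' + 1)) ≤ δ * X := by
      have hp : 0 < δ * X := by positivity
      have h1 : 8 * F g (j - 1) / (δ * X) < t (j - 1) + 1 := Nat.lt_floor_add_one _
      have h2 : (t (j' + 1) : ℝ) ≤ 8 * F g (j' + 1) / (δ * X) :=
        Nat.floor_le (by have := F_nonneg g (j' + 1); positivity)
      rw [hconst] at h2
      have h3 : 8 * F g (j - 1) / (δ * X) < 8 * F g (j' + 1) / (δ * X) + 1 := by linarith
      rw [div_lt_iff₀ hp, add_mul, div_mul_cancel₀ _ hp.ne', one_mul] at h3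
      linarith
    have hcent := hc g (4 * X) hadm j j' hj0 hjj'
    have hint : Integrable (fun y => (A g j (y - 2 ^ j / 2) - A g j' (y - 2 ^ j' / 2)) ^ 2) := by
      have := (hv g (4 * X) hadm j 0).1 (-(2 ^ j / 2)) j' (-(2 ^ j' / 2))
      simpa only [← sub_eq_add_neg] using this
    have hle : ∫ x in (1)..X, (psiC x (2 ^ j) / 2 ^ j - psiC x (2 ^ j') / 2 ^ j') ^ 2 ≤
        ∫ y, (A g j (y - 2 ^ j / 2) - A g j' (y - 2 ^ j' / 2)) ^ 2 := by
      rw [intervalIntegral.integral_of_le (by linarith)]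
      have e1 : ∫ x in Set.Ioc 1 X, (psiC x (2 ^ j) / 2 ^ j - psiC x (2 ^ j') / 2 ^ j') ^ 2 =
          ∫ y in Set.Ioc 1 X, (A g j (y - 2 ^ j / 2) - A g j' (y - 2 ^ j' / 2)) ^ 2 := by
        refine setIntegral_congr_fun measurableSet_Ioc fun x hx => ?_
        have hx' : x ≤ X := hx.2
        have key : ∀ k : ℕ, (2 : ℝ) ^ k ≤ X → A g k (x - 2 ^ k / 2) = psiC x (2 ^ k) / 2 ^ k := by
          intro k hk
          have h1 : x - 2 ^ k / 2 + 2 ^ k = x + 2 ^ k / 2 := by ring
          have h2 : min (x + 2 ^ k / 2) (4 * X) = x + 2 ^ k / 2 := min_eq_left (by linarith)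
          have hk0 : (0 : ℝ) < 2 ^ k := by positivity
          have h3 : min (x - 2 ^ k / 2) (4 * X) = x - 2 ^ k / 2 := min_eq_left (by linarith)
          simp only [A, hg, psiC, h1, h2, h3]
        have hjX : (2 : ℝ) ^ j ≤ X := le_trans (pow_le_pow_right₀ (by norm_num) hjj') hj'
        rw [key j hjX, key j' hj']
      rw [e1]
      exact setIntegral_le_integral hint (Filter.Eventually.of_forall fun _ => sq_nonneg _)
    have hfin : ∫ x in (1)..X, (psiC x (2 ^ j) / 2 ^ j - psiC x (2 ^ j') / 2 ^ j') ^ 2 ≤ δ * X :=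
      hle.trans (hcent.trans hdiff)
    calc (1 / X) * ∫ x in (1)..X, (psiC x (2 ^ j) / 2 ^ j - psiC x (2 ^ j') / 2 ^ j') ^ 2
        ≤ (1 / X) * (δ * X) := mul_le_mul_of_nonneg_left hfin (by positivity)
      _ = δ := by field_simp

end Pool.Agent.NH18.SV
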