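import Mathlib

/-!
# Statements of the project SV (primes in short intervals: plateaus of the variance)
-/

namespace Pool.Agent.NH18.SV

open MeasureTheory

/-- the average increment of `g` on `[x, x + 2 ^ j]` -/
noncomputable def A (g : ℝ → ℝ) (j : ℕ) (x : ℝ) : ℝ := (g (x + 2 ^ j) - g x) / 2 ^ j

/-- the energy at the scale `2 ^ j` -/
noncomputable def F (g : ℝ → ℝ) (j : ℕ) : ℝ := ∫ x, A g j x ^ 2

/-- `g` is monotone, zero on the negative half-line and constant on `[M, ∞)` -/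
structure Adm (g : ℝ → ℝ) (M : ℝ) : Prop where
  mono : Monotone g
  left : ∀ x ≤ 0, g x = 0
  right : ∀ x, M ≤ x → g x = g M

/-- The energy and the variances. -/
def S_var : Prop := ∀ (g : ℝ → ℝ) (M : ℝ), Adm g M → ∀ i K : ℕ,
  (∀ (c : ℝ) (i' : ℕ) (c' : ℝ), Integrable (fun x => (A g i (x + c) - A g i' (x + c')) ^ 2)) ∧
  (∑ b ∈ Finset.range (2 ^ K), ∫ x, (A g i (x + b * 2 ^ i) - A g (i + K) x) ^ 2) =
    2 ^ K * (F g i - F g (i + K))

/-- Centred intervals of two scales. -/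
def S_cent : Prop := ∀ (g : ℝ → ℝ) (M : ℝ), Adm g M → ∀ j j' : ℕ, 1 ≤ j → j ≤ j' →
  ∫ y, (A g j (y - 2 ^ j / 2) - A g j' (y - 2 ^ j' / 2)) ^ 2 ≤ 8 * (F g (j - 1) - F g (j' + 1))

/-- The energy of the primes. -/
def S_psibase : Prop := ∃ C : ℝ, 0 < C ∧ ∀ X : ℝ, 2 ≤ X → ∀ j : ℕ, Real.log X ≤ 2 * 2 ^ j →
  (2 : ℝ) ^ j ≤ X → F (fun x => Chebyshev.psi (min x (4 * X))) j ≤ C * X

end Pool.Agent.NH18.SV
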