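import Pool.Agent.NH18.SV.Stm

/-!
# SV-1: the variance identity for the averages of a monotone function at dyadic scales
-/

set_option autoImplicit false

namespace Pool.Agent.NH18.SV

namespace VarAux

open MeasureTheory Finset

/-- bounded measurable functions with bounded support are integrable -/
lemma key (f : ℝ → ℝ) (hf : Measurable f) (C : ℝ) (hC : ∀ x, |f x| ≤ C) (a b : ℝ)
    (hs : ∀ x, x ∉ Set.Icc a b → f x = 0) : Integrable f := by
  have h1 : Function.support f ⊆ Set.Icc a b := by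
    intro x hx
    by_contra h
    exact hx (hs x h)
  rw [← integrableOn_iff_integrable_of_support_subset h1]
  refine Measure.integrableOn_of_bounded (M := C) (measure_Icc_lt_top).ne
    hf.aestronglyMeasurable ?_
  exact Filter.Eventually.of_forall fun x => by rw [Real.norm_eq_abs]; exact hC x

variable {g : ℝ → ℝ} {M : ℝ}

lemma g_nonneg (h : Adm g M) (x : ℝ) : 0 ≤ g x := by
  rcases le_total x 0 with hx | hx
  · rw [h.left x hx]
  · have := h.mono hx
    rwa [h.left 0 le_rfl] at this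

lemma g_le (h : Adm g M) (x : ℝ) : g x ≤ g M := by
  rcases le_total x M with hx | hx
  · exact h.mono hx
  · rw [h.right x hx]

lemma A_meas (h : Adm g M) (i : ℕ) (c : ℝ) : Measurable (fun x => A g i (x + c)) := by
  unfold A
  have hm := h.mono.measurable
  fun_prop

lemma A_bound (h : Adm g M) (i : ℕ) (x : ℝ) : |A g i x| ≤ g M := by
  unfold A
  have h1 := g_nonneg h x
  have h2 := g_nonneg h (x + 2 ^ i)
  have h3 := g_le h x
  have h4 := g_le h (x + 2 ^ i)
  have h5 : (1 : ℝ) ≤ 2 ^ i := one_le_pow₀ (by norm_num)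
  have h0 : |g (x + 2 ^ i) - g x| ≤ g M := by
    rw [abs_le]
    constructor <;> linarith
  have hM : 0 ≤ g M := g_nonneg h M
  rw [abs_div, abs_of_pos (show (0 : ℝ) < 2 ^ i by positivity), div_le_iff₀ (by positivity)]
  nlinarith

lemma A_supp (h : Adm g M) (i : ℕ) (x : ℝ) (hx : x < -2 ^ i ∨ M < x) : A g i x = 0 := by
  unfold A
  have h5 : (0 : ℝ) < 2 ^ i := by positivity
  rcases hx with hx | hx
  · rw [h.left x (by linarith), h.left (x + 2 ^ i) (by linarith)]
    simp
  · rw [h.right x hx.le, h.right (x + 2 ^ i) (by linarith)]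
    simp

lemma int_diff (h : Adm g M) (i : ℕ) (c : ℝ) (i' : ℕ) (c' : ℝ) :
    Integrable (fun x => (A g i (x + c) - A g i' (x + c')) ^ 2) := by
  refine key _ (((A_meas h i c).sub (A_meas h i' c')).pow_const 2) ((2 * g M) ^ 2) ?_
    (min (-2 ^ i - c) (-2 ^ i' - c')) (max (M - c) (M - c')) ?_
  · intro x
    have h1 := A_bound h i (x + c)
    have h2 := A_bound h i' (x + c')
    rw [abs_pow]
    refine pow_le_pow_left₀ (abs_nonneg _) ?_ 2
    calc |A g i (x + c) - A g i' (x + c')| ≤ |A g i (x + c)| + |A g i' (x + c')| := abs_sub _ _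
      _ ≤ 2 * g M := by linarith
  · intro x hx
    rw [Set.mem_Icc, not_and_or, not_le, not_le, lt_min_iff, max_lt_iff] at hx
    rw [A_supp h i (x + c) (by rcases hx with hx | hx; exact Or.inl (by linarith [hx.1]); exact Or.inr (by linarith [hx.1])),
      A_supp h i' (x + c') (by rcases hx with hx | hx; exact Or.inl (by linarith [hx.2]); exact Or.inr (by linarith [hx.2]))]
    simp

lemma int_sq (h : Adm g M) (i : ℕ) (c : ℝ) : Integrable (fun x => A g i (x + c) ^ 2) := by
  refine key _ ((A_meas h i c).pow_const 2) ((g M) ^ 2) ?_ (-2 ^ i - c) (M - c) ?_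
  · intro x
    rw [abs_pow]
    exact pow_le_pow_left₀ (abs_nonneg _) (A_bound h i (x + c)) 2
  · intro x hx
    rw [Set.mem_Icc, not_and_or, not_le, not_le] at hx
    rw [A_supp h i (x + c) (by rcases hx with hx | hx; exact Or.inl (by linarith); exact Or.inr (by linarith))]
    simp

/-- telescoping -/
lemma tele (g : ℝ → ℝ) (i K : ℕ) (x : ℝ) :
    ∑ b ∈ range (2 ^ K), A g i (x + b * 2 ^ i) = 2 ^ K * A g (i + K) x := by
  unfold A
  rw [← Finset.sum_div]
  have h1 : ∑ b ∈ range (2 ^ K), (g (x + b * 2 ^ i + 2 ^ i) - g (x + b * 2 ^ i)) =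
      g (x + 2 ^ (i + K)) - g x := by
    have h2 := Finset.sum_range_sub (fun b : ℕ => g (x + b * 2 ^ i)) (2 ^ K)
    have h3 : ∀ b : ℕ, g (x + b * 2 ^ i + 2 ^ i) = g (x + ((b + 1 : ℕ) : ℝ) * 2 ^ i) := by
      intro b
      congr 1
      push_cast
      ring
    simp only [h3]
    rw [h2]
    congr 1
    · congr 1
      push_cast
      rw [pow_add]
      ring
    · simp
  rw [h1, pow_add]
  field_simp

end VarAux

open VarAux MeasureTheory Finset in
theorem t_var : S_var := by
  intro g M h i K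
  refine ⟨fun c i' c' => int_diff h i c i' c', ?_⟩
  have h0 : ∀ b : ℕ, Integrable (fun x => (A g i (x + b * 2 ^ i) - A g (i + K) x) ^ 2) := by
    intro b
    have := int_diff h i (b * 2 ^ i) (i + K) 0
    simpa using this
  rw [← integral_finset_sum _ (fun b _ => h0 b)]
  have h1 : ∀ x, ∑ b ∈ range (2 ^ K), (A g i (x + b * 2 ^ i) - A g (i + K) x) ^ 2 =
      ∑ b ∈ range (2 ^ K), A g i (x + b * 2 ^ i) ^ 2 - 2 ^ K * A g (i + K) x ^ 2 := by
    intro x
    have e1 : ∀ b : ℕ, (A g i (x + b * 2 ^ i) - A g (i + K) x) ^ 2 =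
        A g i (x + b * 2 ^ i) ^ 2 - 2 * A g (i + K) x * A g i (x + b * 2 ^ i) +
          A g (i + K) x ^ 2 := fun b => by ring
    simp only [e1]
    rw [sum_add_distrib, sum_sub_distrib, ← mul_sum, tele, sum_const, card_range, nsmul_eq_mul]
    push_cast
    ring
  simp only [h1]
  have h2 : Integrable (fun x => ∑ b ∈ range (2 ^ K), A g i (x + b * 2 ^ i) ^ 2) :=
    integrable_finset_sum _ fun b _ => int_sq h i (b * 2 ^ i)
  have h3 : Integrable (fun x => 2 ^ K * A g (i + K) x ^ 2) := by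
    have := (int_sq h (i + K) 0).const_mul (2 ^ K)
    simpa using this
  have h5 : ∫ x, ∑ b ∈ range (2 ^ K), A g i (x + b * 2 ^ i) ^ 2 =
      ∑ b ∈ range (2 ^ K), ∫ x, A g i (x + b * 2 ^ i) ^ 2 :=
    integral_finset_sum (range (2 ^ K)) (f := fun (b : ℕ) x => A g i (x + b * 2 ^ i) ^ 2)
      (fun b _ => int_sq h i (b * 2 ^ i))
  rw [integral_sub h2 h3, h5, integral_const_mul]
  have h4 : ∀ b : ℕ, ∫ x, A g i (x + b * 2 ^ i) ^ 2 = F g i := by
    intro b
    unfold F
    exact integral_add_right_eq_self (fun x => A g i x ^ 2) (b * 2 ^ i : ℝ)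
  simp only [h4]
  rw [sum_const, card_range, nsmul_eq_mul]
  unfold F
  push_cast
  ring

end Pool.Agent.NH18.SV
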